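import Pool.Agent.Run7.h932.RG.Stm

/-! Project RG (helper932), piece NUM. -/

set_option autoImplicit false

namespace Run7.h811.RG

open Finset Classical Filter
open Run7.h932.RG

lemma log_bd (K : ℝ) (hK : 3980 ≤ K) : Real.log K / K ≤ 21 / 10000 := by
  have hK0 : 0 < K := by linarith
  have h1 : Real.log K = Real.log 3980 + Real.log (K / 3980) := by
    rw [← Real.log_mul (by norm_num) (by positivity)]
    congr 1
    field_simp
  have h2 : Real.log (K / 3980) ≤ K / 3980 - 1 := Real.log_le_sub_one_of_pos (by positivity)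
  have h3 : Real.log 3980 ≤ 12 * Real.log 2 := by
    have : (12 : ℝ) * Real.log 2 = Real.log (2 ^ 12) := by rw [Real.log_pow]; norm_num
    rw [this]
    exact Real.log_le_log (by norm_num) (by norm_num)
  have h4 := Real.log_two_lt_d9
  rw [div_le_iff₀ hK0]
  nlinarith

theorem partA (K Δ : ℝ) (hK : 3980 ≤ K) (hΔ : Δ ≤ 2 * (K + 20) * Real.log (K + 20) - 3 * (K + 20)) :
    (K / (K - 1)) ^ 2 * (Δ / K + 1 / 2) ≤ 2 * Real.log K - 2 := by
  have hK0 : 0 < K := by linarith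
  have hlog : Real.log (K + 20) ≤ Real.log K + 20 / K := by
    have h1 : K + 20 = K * (1 + 20 / K) := by field_simp
    rw [h1, Real.log_mul hK0.ne' (by positivity)]
    have h2 := Real.log_le_sub_one_of_pos (show (0 : ℝ) < 1 + 20 / K by positivity)
    linarith
  obtain ⟨a, ha⟩ : ∃ a, a = Real.log K := ⟨_, rfl⟩
  obtain ⟨u, hu⟩ : ∃ u, u = 1 / K := ⟨_, rfl⟩
  have hu0 : 0 < u := by rw [hu]; positivity
  have hu1 : u ≤ 1 / 3980 := by rw [hu]; exact one_div_le_one_div_of_le (by norm_num) hK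
  have hw : u * a ≤ 21 / 10000 := by
    have := log_bd K hK
    rw [ha, hu, one_div_mul_eq_div]; exact this
  have ha8 : 8 ≤ a := by
    have h1 : Real.log (2 ^ 11) ≤ Real.log K := Real.log_le_log (by norm_num) (by linarith)
    rw [Real.log_pow] at h1
    have h2 := Real.log_two_gt_d9
    have h3 : Real.log 3980 ≤ Real.log K := Real.log_le_log (by norm_num) hK
    have h4 : Real.log 3980 = Real.log (2 ^ 11) + Real.log (3980 / 2 ^ 11) := by
      rw [← Real.log_mul (by norm_num) (by norm_num)]; norm_num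
    have h5 : 1 - (3980 / 2 ^ 11 : ℝ)⁻¹ ≤ Real.log (3980 / 2 ^ 11) := Real.one_sub_inv_le_log_of_pos (by norm_num)
    rw [Real.log_pow] at h4
    norm_num at h4 h5
    rw [ha]
    linarith
  have h1 : Δ / K ≤ (1 + 20 * u) * (2 * a + 40 * u - 3) := by
    rw [div_le_iff₀ hK0]
    have h2 : (1 + 20 * u) * (2 * a + 40 * u - 3) * K = (K + 20) * (2 * (a + 20 / K) - 3) := by
      rw [hu]; field_simp; ring
    rw [h2]
    have h3 : (K + 20) * (2 * Real.log (K + 20) - 3) ≤ (K + 20) * (2 * (a + 20 / K) - 3) := by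
      apply mul_le_mul_of_nonneg_left _ (by linarith)
      rw [ha]; linarith
    linarith
  have h2 : (K / (K - 1)) ^ 2 ≤ 1 + 201 / 100 * u := by
    have h3 : K / (K - 1) = 1 / (1 - u) := by
      rw [hu, div_eq_div_iff (by linarith) (by
        have : 1 / K ≤ 1 / 3980 := one_div_le_one_div_of_le (by norm_num) hK
        linarith)]
      field_simp
    rw [h3, div_pow, one_pow, div_le_iff₀ (by
      have : 0 < 1 - u := by linarith
      positivity)]
    nlinarith [mul_pos hu0 hu0, mul_pos hu0 (mul_pos hu0 hu0)]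
  have h3 : 0 ≤ (1 + 20 * u) * (2 * a + 40 * u - 3) + 1 / 2 := by
    have : 0 ≤ (1 + 20 * u) * (2 * a + 40 * u - 3) := mul_nonneg (by linarith) (by linarith)
    linarith
  calc (K / (K - 1)) ^ 2 * (Δ / K + 1 / 2)
      ≤ (K / (K - 1)) ^ 2 * ((1 + 20 * u) * (2 * a + 40 * u - 3) + 1 / 2) :=
        mul_le_mul_of_nonneg_left (by linarith) (sq_nonneg _)
    _ ≤ (1 + 201 / 100 * u) * ((1 + 20 * u) * (2 * a + 40 * u - 3) + 1 / 2) :=
        mul_le_mul_of_nonneg_right h2 h3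
    _ = 2 * a - 5 / 2 + (40 * (u * a) - 20 * u + 800 * (u * u)) +
        201 / 100 * (2 * (u * a) - 5 / 2 * u + 40 * (u * (u * a)) - 20 * (u * u) + 800 * (u * (u * u))) := by ring
    _ ≤ 2 * a - 2 := by
        have b1 : u * u ≤ u * (1 / 3980) := mul_le_mul_of_nonneg_left hu1 hu0.le
        have b2 : u * (u * a) ≤ u * (21 / 10000) := mul_le_mul_of_nonneg_left hw hu0.le
        have b3 : u * (u * u) ≤ u * (u * (1 / 3980)) := mul_le_mul_of_nonneg_left b1 hu0.le
        have b4 : 0 < u * u := mul_pos hu0 hu0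
        linarith
    _ = 2 * Real.log K - 2 := by rw [ha]

theorem t_NUM : S_NUM := by
  intro q Δ hq hΔ hΔq
  obtain ⟨k, hk⟩ : ∃ k : ℕ, k = q - 20 := ⟨_, rfl⟩
  rw [← hk]
  have hqk : q = k + 20 := by omega
  obtain ⟨K, hKd⟩ : ∃ K : ℝ, K = (k : ℝ) := ⟨_, rfl⟩
  have hQ : (q : ℝ) = K + 20 := by rw [hKd, hqk]; push_cast; ring
  have hK : 3980 ≤ K := by
    rw [hKd]
    have : 3980 ≤ k := by omega
    exact_mod_cast this
  rw [← hKd, hQ]
  rw [hQ] at hΔq
  refine ⟨partA K Δ hK hΔq, ?_⟩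
  have hK0 : 0 < K := by linarith
  obtain ⟨Q, hQd⟩ : ∃ Q : ℝ, Q = K + 20 := ⟨_, rfl⟩
  rw [← hQd] at hΔq ⊢
  have hQ0 : 0 < Q := by linarith
  have hQ4 : 4000 ≤ Q := by linarith
  have hlogK : 0 < Real.log K := Real.log_pos (by linarith)
  obtain ⟨n₀, hn₀⟩ := (((tendsto_rpow_atTop (show (0 : ℝ) < 1 / 8 by norm_num)).comp
    tendsto_natCast_atTop_atTop).eventually_ge_atTop ((2 * Real.log K + 1) * Q / 17)).exists_forall_of_atTop
  refine ⟨n₀ + 1, fun n m m' x hn hm' hm hx => ?_⟩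
  have hn1 := hn₀ n (by omega)
  simp only [Function.comp_apply] at hn1
  have hnr : (1 : ℝ) ≤ n := by exact_mod_cast (by omega : 1 ≤ n)
  have hn0 : (0 : ℝ) < n := by linarith
  obtain ⟨η, hη⟩ : ∃ η, η = 40 / Q + 12 * Δ / Q ^ 2 := ⟨_, rfl⟩
  rw [← hη]
  have hη0 : 0 < η := by rw [hη]; positivity
  have hη1 : η ≤ 1 := by
    have h1 := log_bd Q (by linarith)
    rw [div_le_iff₀ hQ0] at h1
    have h2 : Δ ≤ 2 * Q * (21 / 10000 * Q) := by
      have : 2 * Q * Real.log Q ≤ 2 * Q * (21 / 10000 * Q) := mul_le_mul_of_nonneg_left h1 (by linarith)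
      linarith
    have h3 : 12 * Δ / Q ^ 2 ≤ 12 * 2 * (21 / 10000) := by
      rw [div_le_iff₀ (by positivity)]
      nlinarith
    have h4 : 40 / Q ≤ 1 / 100 := by
      rw [div_le_iff₀ hQ0]; linarith
    rw [hη]
    linarith
  -- the factors
  have f1 : (1 - 1 / Q) ^ m ≤ Real.exp (-(m / Q)) := by
    have h1 : 0 ≤ 1 - 1 / Q := by
      rw [sub_nonneg, div_le_one hQ0]; linarith
    have h2 : 1 - 1 / Q ≤ Real.exp (-(1 / Q)) := Real.one_sub_le_exp_neg _
    calc (1 - 1 / Q) ^ m ≤ Real.exp (-(1 / Q)) ^ m := pow_le_pow_left₀ h1 h2 m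
      _ = Real.exp (-(m / Q)) := by rw [← Real.exp_nat_mul]; congr 1; ring
  have f2 : ((1 - η) * Q) ^ n ≤ K ^ n * Real.exp (n * (20 / K - η)) := by
    have h1 : 0 ≤ (1 - η) * Q := mul_nonneg (by linarith) hQ0.le
    have h2 : (1 - η) * Q ≤ K * Real.exp (20 / K - η) := by
      have h3 : 1 - η ≤ Real.exp (-η) := Real.one_sub_le_exp_neg _
      have h4 : Q ≤ K * Real.exp (20 / K) := by
        have h5 := Real.add_one_le_exp (20 / K)
        have h6 : Q = K * (20 / K + 1) := by rw [hQd]; field_simp; ring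
        rw [h6]
        exact mul_le_mul_of_nonneg_left h5 hK0.le
      calc (1 - η) * Q ≤ Real.exp (-η) * (K * Real.exp (20 / K)) :=
            mul_le_mul h3 h4 hQ0.le (Real.exp_pos _).le
        _ = K * Real.exp (20 / K - η) := by
            rw [sub_eq_add_neg, Real.exp_add]; ring
    calc ((1 - η) * Q) ^ n ≤ (K * Real.exp (20 / K - η)) ^ n := pow_le_pow_left₀ h1 h2 n
      _ = _ := by rw [mul_pow, ← Real.exp_nat_mul]
  have f3 : K ^ x = Real.exp (x * Real.log K) := by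
    rw [Real.exp_nat_mul, Real.exp_log hK0]
  have f4 : Real.exp (-((m + 2 * n) / (K - 1))) ≤ (1 - 1 / K) ^ m' := by
    have h1 : 0 ≤ 1 - 1 / K := by
      rw [sub_nonneg, div_le_one hK0]; linarith
    have h2 : 1 - 1 / K ≤ 1 := by
      have : 0 ≤ 1 / K := by positivity
      linarith
    have h3 : Real.exp (-(1 / (K - 1))) ≤ 1 - 1 / K := by
      have h4 := Real.add_one_le_exp (1 / (K - 1))
      have h5 : 1 / (K - 1) + 1 = K / (K - 1) := by
        have : K - 1 ≠ 0 := by linarith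
        field_simp
        ring
      rw [h5] at h4
      rw [Real.exp_neg, inv_le_comm₀ (Real.exp_pos _) (by
        have : 1 / K ≤ 1 / 3980 := one_div_le_one_div_of_le (by norm_num) hK
        linarith)]
      refine le_trans (le_of_eq ?_) h4
      have : K - 1 ≠ 0 := by linarith
      rw [inv_eq_iff_eq_inv, inv_div]
      field_simp
    calc Real.exp (-((m + 2 * n) / (K - 1))) = Real.exp (-(1 / (K - 1))) ^ (m + 2 * n) := by
          rw [← Real.exp_nat_mul]; congr 1; push_cast; ring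
      _ ≤ (1 - 1 / K) ^ (m + 2 * n) := pow_le_pow_left₀ (Real.exp_pos _).le h3 _
      _ ≤ (1 - 1 / K) ^ m' := pow_le_pow_of_le_one h1 h2 hm'
  -- the exponents
  have e1 : (x : ℝ) * Real.log K + (n : ℝ) ^ (3 / 4 : ℝ) ≤ 17 * n / Q := by
    have h1 : (n : ℝ) ^ (3 / 4 : ℝ) ≤ (n : ℝ) ^ (7 / 8 : ℝ) :=
      Real.rpow_le_rpow_of_exponent_le hnr (by norm_num)
    have h2 : (x : ℝ) * Real.log K ≤ 2 * (n : ℝ) ^ (7 / 8 : ℝ) * Real.log K :=
      mul_le_mul_of_nonneg_right hx hlogK.le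
    have h3 : (n : ℝ) ^ (7 / 8 : ℝ) * (n : ℝ) ^ (1 / 8 : ℝ) = n := by
      rw [← Real.rpow_add hn0]; norm_num
    have h4 : (n : ℝ) ^ (7 / 8 : ℝ) * ((2 * Real.log K + 1) * Q / 17) ≤ n := by
      calc (n : ℝ) ^ (7 / 8 : ℝ) * ((2 * Real.log K + 1) * Q / 17) ≤
          (n : ℝ) ^ (7 / 8 : ℝ) * (n : ℝ) ^ (1 / 8 : ℝ) := mul_le_mul_of_nonneg_left hn1 (by positivity)
        _ = n := h3
    rw [le_div_iff₀ hQ0]
    have h5 : (x : ℝ) * Real.log K + (n : ℝ) ^ (3 / 4 : ℝ) ≤ (n : ℝ) ^ (7 / 8 : ℝ) * (2 * Real.log K + 1) := by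
      linarith
    calc ((x : ℝ) * Real.log K + (n : ℝ) ^ (3 / 4 : ℝ)) * Q ≤ (n : ℝ) ^ (7 / 8 : ℝ) * (2 * Real.log K + 1) * Q :=
          mul_le_mul_of_nonneg_right h5 hQ0.le
      _ = 17 * ((n : ℝ) ^ (7 / 8 : ℝ) * ((2 * Real.log K + 1) * Q / 17)) := by ring
      _ ≤ 17 * n := by linarith
  have e2 : 1 / (K - 1) ≤ 10053 / 10000 * (1 / Q) := by
    rw [mul_one_div, div_le_div_iff₀ (by linarith) hQ0]
    linarith
  have e3 : 1 / K ≤ 10053 / 10000 * (1 / Q) := by
    rw [mul_one_div, div_le_div_iff₀ hK0 hQ0]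
    linarith
  have e4 : (m : ℝ) / (K - 1) - m / Q ≤ (Δ / 2 + 1) * n * (21 * (10053 / 10000) / Q ^ 2) := by
    have h1 : (m : ℝ) / (K - 1) - m / Q = m * (21 * (1 / (K - 1)) / Q) := by
      have : K - 1 ≠ 0 := by linarith
      have : Q = (K - 1) + 21 := by linarith
      field_simp
      rw [this]; ring
    rw [h1]
    have h2 : 21 * (1 / (K - 1)) / Q ≤ 21 * (10053 / 10000) / Q ^ 2 := by
      rw [div_le_div_iff₀ hQ0 (by positivity)]
      have h3 : 1 / (K - 1) * Q ≤ 10053 / 10000 := by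
        calc 1 / (K - 1) * Q ≤ 10053 / 10000 * (1 / Q) * Q := mul_le_mul_of_nonneg_right e2 hQ0.le
          _ = 10053 / 10000 := by field_simp
      nlinarith
    have h0 : 0 ≤ 21 * (1 / (K - 1)) / Q := by
      have : 0 < K - 1 := by linarith
      positivity
    exact mul_le_mul hm h2 h0 (by positivity)
  have e5 : -((m : ℝ) / Q) + n * (20 / K - η) + x * Real.log K ≤
      -((m + 2 * n) / (K - 1)) + -(n : ℝ) ^ (3 / 4 : ℝ) := by
    have h1 : ((m : ℝ) + 2 * n) / (K - 1) = m / (K - 1) + 2 * n * (1 / (K - 1)) := by ring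
    have h2 : (20 : ℝ) / K = 20 * (1 / K) := by ring
    rw [h1, h2]
    have h3 : 2 * (n : ℝ) * (1 / (K - 1)) ≤ 2 * n * (10053 / 10000 * (1 / Q)) :=
      mul_le_mul_of_nonneg_left e2 (by positivity)
    have h4 : (n : ℝ) * (20 * (1 / K)) ≤ n * (20 * (10053 / 10000 * (1 / Q))) := by
      apply mul_le_mul_of_nonneg_left _ hn0.le
      linarith
    have h5 : (Δ / 2 + 1) * n * (21 * (10053 / 10000) / Q ^ 2) + 2 * n * (10053 / 10000 * (1 / Q)) +
        n * (20 * (10053 / 10000 * (1 / Q))) + 17 * n / Q ≤ n * η := by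
      rw [hη]
      have h6 : (1 : ℝ) / Q ^ 2 ≤ 1 / 4000 * (1 / Q) := by
        rw [mul_one_div, div_div, div_le_div_iff₀ (by positivity) (by positivity)]
        nlinarith
      have h7 : (Δ / 2 + 1) * n * (21 * (10053 / 10000) / Q ^ 2) + 2 * n * (10053 / 10000 * (1 / Q)) +
        n * (20 * (10053 / 10000 * (1 / Q))) + 17 * n / Q =
        n * ((Δ / 2 * 21 * (10053 / 10000)) * (1 / Q ^ 2) + 21 * (10053 / 10000) * (1 / Q ^ 2) +
          (22 * (10053 / 10000) + 17) * (1 / Q)) := by ring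
      rw [h7]
      apply mul_le_mul_of_nonneg_left _ hn0.le
      have h8 : 40 / Q + 12 * Δ / Q ^ 2 = 40 * (1 / Q) + 12 * Δ * (1 / Q ^ 2) := by ring
      rw [h8]
      have h9 : 0 < 1 / Q ^ 2 := by positivity
      have h10 : 0 < 1 / Q := by positivity
      have h11 : (Δ / 2 * 21 * (10053 / 10000)) * (1 / Q ^ 2) ≤ 12 * Δ * (1 / Q ^ 2) := by
        apply mul_le_mul_of_nonneg_right _ h9.le
        linarith
      nlinarith
    linarith
  calc (1 - 1 / Q) ^ m * ((1 - η) * Q) ^ n * K ^ x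
      ≤ Real.exp (-(m / Q)) * (K ^ n * Real.exp (n * (20 / K - η))) * Real.exp (x * Real.log K) := by
        rw [f3]
        apply mul_le_mul_of_nonneg_right _ (Real.exp_pos _).le
        apply mul_le_mul f1 f2 _ (Real.exp_pos _).le
        exact pow_nonneg (mul_nonneg (by linarith) hQ0.le) n
    _ = K ^ n * Real.exp (-((m : ℝ) / Q) + n * (20 / K - η) + x * Real.log K) := by
        rw [Real.exp_add, Real.exp_add]; ring
    _ ≤ K ^ n * Real.exp (-((m + 2 * n) / (K - 1)) + -(n : ℝ) ^ (3 / 4 : ℝ)) := by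
        apply mul_le_mul_of_nonneg_left _ (by positivity)
        rw [Real.exp_le_exp]
        exact e5
    _ = Real.exp (-((m + 2 * n) / (K - 1))) * (K ^ n * Real.exp (-(n : ℝ) ^ (3 / 4 : ℝ))) := by
        rw [Real.exp_add]; ring
    _ ≤ (1 - 1 / K) ^ m' * (K ^ n * Real.exp (-(n : ℝ) ^ (3 / 4 : ℝ))) :=
        mul_le_mul_of_nonneg_right f4 (by positivity)

end Run7.h811.RG
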