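import Pool.Agent.Run7.h932.RG.Stm

/-! Project RG (helper932), piece PZ. -/

set_option autoImplicit false

namespace Run7.h811.RG

open Finset Classical
open Run7.h932.RG

theorem t_PZ : S_PZ := by
  intro Ω _ m X c hm hm1 hX hc hc0
  set A := univ.filter fun ω => c ≤ X ω with hA
  set B := univ.filter fun ω => ¬ c ≤ X ω with hB
  have h1 : ∑ ω, m ω * X ω = ∑ ω ∈ A, m ω * X ω + ∑ ω ∈ B, m ω * X ω :=
    (sum_filter_add_sum_filter_not _ _ _).symm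
  have h2 : ∑ ω ∈ B, m ω * X ω ≤ c := by
    calc ∑ ω ∈ B, m ω * X ω ≤ ∑ ω ∈ B, m ω * c := by
          apply sum_le_sum
          intro ω hω
          rw [hB, mem_filter, not_le] at hω
          exact mul_le_mul_of_nonneg_left hω.2.le (hm ω)
      _ ≤ ∑ ω, m ω * c := sum_le_sum_of_subset_of_nonneg (subset_univ _)
          (fun ω _ _ => mul_nonneg (hm ω) hc0)
      _ = c := by rw [← sum_mul, hm1, one_mul]
  have h3 : (∑ ω ∈ A, m ω * X ω) ^ 2 ≤ (∑ ω ∈ A, m ω * X ω ^ 2) * ∑ ω ∈ A, m ω := by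
    apply sum_sq_le_sum_mul_sum_of_sq_eq_mul
    · intro ω _; exact mul_nonneg (hm ω) (sq_nonneg _)
    · intro ω _; exact hm ω
    · intro ω _; ring
  have h4 : ∑ ω ∈ A, m ω * X ω ^ 2 ≤ ∑ ω, m ω * X ω ^ 2 :=
    sum_le_sum_of_subset_of_nonneg (subset_univ _) (fun ω _ _ => mul_nonneg (hm ω) (sq_nonneg _))
  have h5 : 0 ≤ ∑ ω ∈ A, m ω := sum_nonneg fun ω _ => hm ω
  have h6 : 0 ≤ ∑ ω ∈ A, m ω * X ω := sum_nonneg fun ω _ => mul_nonneg (hm ω) (hX ω)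
  have h7 : (∑ ω ∈ A, m ω * X ω ^ 2) * ∑ ω ∈ A, m ω ≤ (∑ ω, m ω * X ω ^ 2) * ∑ ω ∈ A, m ω :=
    mul_le_mul_of_nonneg_right h4 h5
  have h8 : ∑ ω, m ω * X ω ≤ 2 * ∑ ω ∈ A, m ω * X ω := by linarith
  have h9 : 0 ≤ ∑ ω, m ω * X ω := sum_nonneg fun ω _ => mul_nonneg (hm ω) (hX ω)
  calc (∑ ω, m ω * X ω) ^ 2 ≤ (2 * ∑ ω ∈ A, m ω * X ω) ^ 2 := pow_le_pow_left₀ h9 h8 2
    _ = 4 * (∑ ω ∈ A, m ω * X ω) ^ 2 := by ring
    _ ≤ 4 * ((∑ ω, m ω * X ω ^ 2) * ∑ ω ∈ A, m ω) := by linarith [h3.trans h7]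
    _ = _ := by ring

end Run7.h811.RG
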